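import Pool.Agent.R677.ZP.Cnt

/-!
# Solvable groups of large Fitting height whose character tables contain few zeros
-/

set_option autoImplicit false

namespace Pool.Agent.Results.MP_c522d4_al.FewZerosLargeFittingHeight

/-- The Fitting series: `fittingSeries G 0` is trivial, and `fittingSeries G (i + 1)` is generated
by the normal subgroups `N` of `G` whose image modulo `fittingSeries G i` is nilpotent (some term
of the lower central series of `N` lies in `fittingSeries G i`). -/
def fittingSeries (G : Type) [Group G] : ℕ → Subgroup G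
  | 0 => ⊥
  | i + 1 => sSup {N : Subgroup G | N.Normal ∧ ∃ k, N.lowerCentralSeries k ≤ fittingSeries G i}

/-- The irreducible complex characters of `G`. -/
def Irr (G : Type) [Group G] : Set (G → ℂ) :=
  {χ | ∃ V : FDRep ℂ G, CategoryTheory.Simple V ∧ V.character = χ}

/-- The zero entries of the character table: pairs of a conjugacy class and an irreducible
character vanishing on it. -/
def zeroEntries (G : Type) [Group G] : Set (ConjClasses G × (G → ℂ)) :=
  {q | q.2 ∈ Irr G ∧ ∀ g : G, ConjClasses.mk g = q.1 → q.2 g = 0}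

/-- The proportion of zero entries in the character table of `G`. -/
noncomputable def zeroProportion (G : Type) [Group G] : ℝ :=
  ((zeroEntries G).ncard : ℝ) / ((Nat.card (ConjClasses G) : ℝ) * ((Irr G).ncard : ℝ))

open Pool.Agent.R677.Baer Pool.Agent.R677.ZP

theorem fs_eq (G : Type) [Group G] (i : ℕ) : fittingSeries G i = fs G i := by
  induction i with
  | zero => rfl
  | succ i ih =>
    change sSup {N : Subgroup G | N.Normal ∧ ∃ k, N.lowerCentralSeries k ≤ fittingSeries G i} =
      sSup {N : Subgroup G | N.Normal ∧ ∃ k, N.lowerCentralSeries k ≤ fs G i}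
    rw [ih]

theorem bound (p : ℕ) [hp : Fact p.Prime] (H : Type) [Group H] [Finite H]
    (hH : ¬ p ∣ Nat.card H) :
    zeroProportion (SD (Bs p H) H) ≤ (Nat.card H : ℝ) ^ 2 / p := by
  classical
  have hp0 : (0 : ℝ) < p := by exact_mod_cast hp.out.pos
  have hNZ : NeZero p := ⟨hp.out.ne_zero⟩
  have hnn : (0 : ℝ) ≤ (Nat.card H : ℝ) ^ 2 / p := by positivity
  unfold zeroProportion
  by_cases hfin : (Irr (SD (Bs p H) H)).Finite
  · have hsub : zeroEntries (SD (Bs p H) H) ⊆ outC p H ×ˢ Irr (SD (Bs p H) H) := by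
      rintro ⟨c, χ⟩ ⟨h1, h2⟩
      refine ⟨?_, h1⟩
      obtain ⟨g, rfl⟩ := ConjClasses.exists_rep c
      refine ⟨g, rfl, ?_⟩
      intro hg
      obtain ⟨V, hV, rfl⟩ := h1
      exact char_ne hH V hV g hg (h2 g rfl)
    have hle : (zeroEntries (SD (Bs p H) H)).ncard ≤
        (outC p H).ncard * (Irr (SD (Bs p H) H)).ncard := by
      rw [← Set.ncard_prod]
      exact Set.ncard_le_ncard hsub (Set.Finite.prod (Set.toFinite _) hfin)
    have h1 := out_count (p := p) (H := H)
    have h2 := in_count (p := p) (H := H)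
    set a := (zeroEntries (SD (Bs p H) H)).ncard
    set o := (outC p H).ncard
    set r := (Irr (SD (Bs p H) H)).ncard
    set k := Nat.card (ConjClasses (SD (Bs p H) H)) with hk
    set n := Nat.card H
    set b := Nat.card (Bs p H) with hb
    have hk0 : 0 < k := Nat.card_pos
    have h3 : p * o ≤ n * k * n := h1.trans (Nat.mul_le_mul_right _ h2)
    rcases Nat.eq_zero_or_pos r with hr | hr
    · rw [hr]; simpa using hnn
    · rw [div_le_div_iff₀ (by positivity) hp0]
      have h4 : a * p ≤ n ^ 2 * (k * r) := by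
        calc a * p ≤ (o * r) * p := Nat.mul_le_mul_right _ hle
          _ = (p * o) * r := by ring
          _ ≤ (n * k * n) * r := Nat.mul_le_mul_right _ h3
          _ = n ^ 2 * (k * r) := by ring
      exact_mod_cast h4
  · have hinf : (Irr (SD (Bs p H) H)).Infinite := hfin
    rw [hinf.ncard]
    simpa using hnn

theorem key (n : ℕ) : ∃ (G : Type) (_ : Group G) (_ : Finite G),
    Group.IsSolvable G ∧ fs G n ≠ ⊤ := by
  induction n with
  | zero =>
    refine ⟨Multiplicative (ZMod 2), inferInstance, inferInstance, inferInstance, ?_⟩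
    intro h
    have h1 : Multiplicative.ofAdd (1 : ZMod 2) ∈ fs (Multiplicative (ZMod 2)) 0 := by
      rw [h]; trivial
    change Multiplicative.ofAdd (1 : ZMod 2) ∈ (⊥ : Subgroup (Multiplicative (ZMod 2))) at h1
    rw [Subgroup.mem_bot] at h1
    exact absurd (congrArg Multiplicative.toAdd h1) (by decide)
  | succ n ih =>
    obtain ⟨H, _, _, hs, hf⟩ := ih
    obtain ⟨p, hp1, hp2⟩ := Nat.exists_infinite_primes (Nat.card H + 1)
    have : Fact p.Prime := ⟨hp2⟩
    have hH : ¬ p ∣ Nat.card H := fun h => by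
      have := Nat.le_of_dvd Nat.card_pos h
      omega
    exact ⟨SD (Bs p H) H, inferInstance, inferInstance, solvable hs, fs_step hH n hf⟩

theorem main (n : ℕ) (ε : ℝ) (hε : 0 < ε) : ∃ (G : Type) (_ : Group G) (_ : Finite G),
    Group.IsSolvable G ∧ fittingSeries G (n + 1) ≠ ⊤ ∧ zeroProportion G ≤ ε := by
  obtain ⟨H, _, _, hs, hf⟩ := key n
  obtain ⟨N, hN⟩ := exists_nat_gt ((Nat.card H : ℝ) ^ 2 / ε)
  obtain ⟨p, hp1, hp2⟩ := Nat.exists_infinite_primes (Nat.card H + 1 + N)
  have : Fact p.Prime := ⟨hp2⟩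
  have hH : ¬ p ∣ Nat.card H := fun h => by
    have := Nat.le_of_dvd Nat.card_pos h
    omega
  refine ⟨SD (Bs p H) H, inferInstance, inferInstance, solvable hs, ?_, ?_⟩
  · rw [fs_eq]
    exact fs_step hH n hf
  · refine (bound p H hH).trans ?_
    have hp0 : (0 : ℝ) < p := by exact_mod_cast hp2.pos
    rw [div_le_iff₀ hp0]
    rw [div_lt_iff₀ hε] at hN
    have h1 : (N : ℝ) ≤ p := by exact_mod_cast (by omega : N ≤ p)
    nlinarith

/-- For every `n` and every `ε > 0` there is a finite solvable group of Fitting height greater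
than `n` (the `n`-th term of its Fitting series is proper) in whose character table the proportion
of zeros is at most `ε`. -/
theorem result : ∀ (n : ℕ) (ε : ℝ), 0 < ε → ∃ (G : Type) (_ : Group G) (_ : Finite G),
    Group.IsSolvable G ∧ fittingSeries G n ≠ ⊤ ∧ zeroProportion G ≤ ε := by
  intro n ε hε
  rcases n with _ | n
  · obtain ⟨G, i1, i2, hs, hf, hz⟩ := main 0 ε hε
    refine ⟨G, i1, i2, hs, ?_, hz⟩
    intro h
    apply hf
    change (⊥ : Subgroup G) = ⊤ at h
    rw [eq_top_iff, ← h]
    exact bot_le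
  · exact main n ε hε

end Pool.Agent.Results.MP_c522d4_al.FewZerosLargeFittingHeight
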